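import Pool.Agent.MQG.StmtsU

set_option autoImplicit false

/-!
MQG row DAD: direct sums of adapted unitaries are adapted.
-/

namespace Pool.Agent.MQG.H77

open Pool.Agent.MQG

theorem dad (dsn : DsnStmt) (dsa : DsaStmt) (dsl : DslStmt) : DadStmt := by
  intro P ι W κ U T hU hT
  have hs := (dsn P _ _ (es κ) U T hU).1
  have h1 : IsDS (es κ) (1 : Op ((Σ p, κ p) × ι)) (fun _ => 1) :=
    (dsa P _ _ (es κ) U U T T hU hU).2.2.2.1
  refine ⟨?_, ?_⟩
  · rw [Unitary.mem_iff]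
    constructor
    · have h2 := (dsa P _ _ (es κ) (star U) U (fun p => star (T p)) T hs hU).1
      exact (dsa P _ _ (es κ) (star U * U) 1 (fun p => star (T p) * T p) (fun _ => 1) h2
        h1).2.2.2.2.2 fun p => (Unitary.mem_iff.1 (hT p).unit).1
    · have h2 := (dsa P _ _ (es κ) U (star U) T (fun p => star (T p)) hU hs).1
      exact (dsa P _ _ (es κ) (U * star U) 1 (fun p => T p * star (T p)) (fun _ => 1) h2
        h1).2.2.2.2.2 fun p => (Unitary.mem_iff.1 (hT p).unit).2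
  · obtain ⟨e1, e2, e3⟩ := dsl P ι κ U T hU
    have e4 := (dsa P _ _ (es κ) _ _ _ _ e1 e2).1
    have e5 := (dsa P _ _ (es κ) _ _ _ _ e4 (e3 W)).1
    have e6 := (dsa P _ _ (es κ) _ _ _ _ (e3 W) e1).1
    exact (dsa P _ _ (es κ) _ _ _ _ e5 e6).2.2.2.2.2 fun p => (hT p).eq

end Pool.Agent.MQG.H77
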